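import Pool.Agent.Helper50_PN.Stmts

/-!
# Squad PN, module COE: the vanishing at all jets gives the vanishing of a coefficient
-/

set_option autoImplicit false

universe u

namespace Pool.Agent.PN.H77

open MvPolynomial

/-- the free variables first -/
def split (n N k : ℕ) : Sig n N k → (Fin n × Fin k) ⊕ ((Fin n × Fin N) ⊕ Fin n) :=
  Sum.elim (fun p => Sum.inr (Sum.inl p))
    (fun p => Fin.cases (Sum.inr (Sum.inr p.1)) (fun s => Sum.inl (p.1, s)) p.2)

/-- the inverse -/
def unsplit (n N k : ℕ) : (Fin n × Fin k) ⊕ ((Fin n × Fin N) ⊕ Fin n) → Sig n N k :=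
  Sum.elim (fun p => Sum.inr (p.1, p.2.succ)) (Sum.elim (fun p => Sum.inl p)
    (fun l => Sum.inr (l, 0)))

lemma unsplit_split (n N k : ℕ) (v : Sig n N k) : unsplit n N k (split n N k v) = v := by
  rcases v with p | ⟨l, s⟩
  · rfl
  · refine Fin.cases ?_ (fun s => ?_) s
    · rfl
    · rfl

theorem coe : CoeStmt.{u} := by
  classical
  intro n N k P hP
  set P' : MvPolynomial (Fin n × Fin k) (MvPolynomial ((Fin n × Fin N) ⊕ Fin n) ℤ) :=
    sumAlgEquiv ℤ (Fin n × Fin k) ((Fin n × Fin N) ⊕ Fin n) (rename (split n N k) P) with hP'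
  have hinj : Function.Injective (split n N k) := by
    intro v w h
    rw [← unsplit_split n N k v, h, unsplit_split]
  have hne : P' ≠ 0 := by
    intro h
    apply hP
    rw [hP', EmbeddingLike.map_eq_zero_iff] at h
    exact rename_injective _ hinj (by rw [h, map_zero])
  obtain ⟨s, hs⟩ := MvPolynomial.ne_zero_iff.mp hne
  refine ⟨P'.coeff s, hs, ?_⟩
  intro E _ _ a y hq
  set φ : MvPolynomial ((Fin n × Fin N) ⊕ Fin n) ℤ →ₐ[ℤ] E :=
    aeval (Sum.elim (fun p => a p.1 p.2) y) with hφ
  have hzero : MvPolynomial.map (φ : MvPolynomial ((Fin n × Fin N) ⊕ Fin n) ℤ →+* E) P' = 0 := by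
    apply MvPolynomial.funext
    intro t
    rw [map_zero]
    have h := hq (Sum.elim (fun p => a p.1 p.2) (fun p => Fin.cases (y p.1)
      (fun s => t (p.1, s)) p.2)) (fun l j => rfl) (fun l => rfl)
    have e : eval t (MvPolynomial.map (φ : MvPolynomial ((Fin n × Fin N) ⊕ Fin n) ℤ →+* E) P') =
        aeval (Sum.elim (fun p => a p.1 p.2) (fun p => Fin.cases (y p.1)
          (fun s => t (p.1, s)) p.2)) P := by
      rw [hP', eval_map]
      have : (((eval₂Hom (φ : MvPolynomial ((Fin n × Fin N) ⊕ Fin n) ℤ →+* E) t).comp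
          ((sumAlgEquiv ℤ (Fin n × Fin k) ((Fin n × Fin N) ⊕ Fin n) :
            MvPolynomial ((Fin n × Fin k) ⊕ ((Fin n × Fin N) ⊕ Fin n)) ℤ →+* _))).comp
          (rename (split n N k) : MvPolynomial _ ℤ →ₐ[ℤ] _).toRingHom) =
          ((aeval (Sum.elim (fun p => a p.1 p.2) (fun p => Fin.cases (y p.1)
          (fun s => t (p.1, s)) p.2)) : Pol n N k →ₐ[ℤ] E) : Pol n N k →+* E) := by
        apply MvPolynomial.ringHom_ext
        · intro z
          simp
        · rintro (p | ⟨l, s⟩)
          · simp [split, hφ]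
          · refine Fin.cases ?_ (fun s => ?_) s
            · simp [split, hφ]
            · simp [split, hφ]
      exact congrArg (fun g : Pol n N k →+* E => g P) this
    rw [e, h]
  have h2 := congrArg (MvPolynomial.coeff s) hzero
  rw [coeff_map, coeff_zero] at h2
  exact h2

end Pool.Agent.PN.H77
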