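import Pool.Agent.Helper50_PN.Stmts

/-!
# Squad PN, module DET: the powers of a series with nonzero coefficient of order one
-/

set_option autoImplicit false

universe u

namespace Pool.Agent.PN.H77

open PowerSeries

theorem det : DetStmt.{u} := by
  intro E _ k x hx
  set c : E := constantCoeff x with hc
  set w : PowerSeries E := PowerSeries.mk fun p => coeff (p + 1) x with hw
  have hxw : x = X * w + C c := PowerSeries.eq_X_mul_shift_add_const x
  have hw0 : constantCoeff w = coeff 1 x := by
    rw [← coeff_zero_eq_constantCoeff_apply, hw, coeff_mk]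
  set P : Matrix (Fin (k + 1)) (Fin (k + 1)) E :=
    Matrix.of fun r i => (((r : ℕ).choose (i : ℕ) : ℕ) : E) * c ^ ((r : ℕ) - (i : ℕ)) with hP
  set Q : Matrix (Fin (k + 1)) (Fin (k + 1)) E :=
    Matrix.of fun i s => coeff (s : ℕ) ((X * w) ^ (i : ℕ)) with hQ
  have hmul : (Matrix.of fun r s : Fin (k + 1) => coeff (s : ℕ) (x ^ (r : ℕ))) = P * Q := by
    ext r s
    rw [Matrix.mul_apply]
    simp only [Matrix.of_apply, hP, hQ]
    rw [hxw, add_pow, map_sum, Finset.sum_fin_eq_sum_range]
    have hsub : Finset.range ((r : ℕ) + 1) ⊆ Finset.range (k + 1) := by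
      intro i hi
      rw [Finset.mem_range] at hi ⊢
      have := r.2
      omega
    rw [← Finset.sum_subset hsub (f := fun i => if h : i < k + 1 then
      (((r : ℕ).choose i : ℕ) : E) * c ^ ((r : ℕ) - i) * coeff (s : ℕ) ((X * w) ^ i) else 0)]
    · refine Finset.sum_congr rfl (fun i hi => ?_)
      have hi' : i < k + 1 := Finset.mem_range.mp (hsub hi)
      rw [dif_pos hi']
      have e1 : (X * w) ^ i * C c ^ ((r : ℕ) - i) * (((r : ℕ).choose i : ℕ) : PowerSeries E) =
          C (c ^ ((r : ℕ) - i) * (((r : ℕ).choose i : ℕ) : E)) * (X * w) ^ i := by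
        rw [map_mul, map_pow, map_natCast]
        ring
      rw [e1, coeff_C_mul]
      ring
    · intro i hi hi2
      have hi' : i < k + 1 := Finset.mem_range.mp hi
      rw [dif_pos hi']
      have : (r : ℕ) < i := by
        rw [Finset.mem_range] at hi2
        omega
      rw [Nat.choose_eq_zero_of_lt this]
      simp
  rw [hmul, Matrix.det_mul]
  have hPt : P.BlockTriangular OrderDual.toDual := by
    intro r i hri
    have : (r : ℕ) < (i : ℕ) := by
      simpa using hri
    rw [hP, Matrix.of_apply, Nat.choose_eq_zero_of_lt this]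
    simp
  have hcoeff : ∀ i s : ℕ, coeff s ((X * w) ^ i) = if i ≤ s then coeff (s - i) (w ^ i) else 0 := by
    intro i s
    rw [mul_pow, coeff_X_pow_mul']
  have hQt : Q.BlockTriangular id := by
    intro i s his
    have : (s : ℕ) < (i : ℕ) := by
      simpa using his
    rw [hQ, Matrix.of_apply, hcoeff, if_neg (by omega)]
  rw [Matrix.det_of_isLowerTriangular P hPt, Matrix.det_of_isUpperTriangular hQt]
  have h1 : ∏ i, P i i = 1 := by
    refine Finset.prod_eq_one (fun i _ => ?_)
    rw [hP, Matrix.of_apply]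
    simp
  rw [h1, one_mul, Finset.prod_ne_zero_iff]
  intro i _
  rw [hQ, Matrix.of_apply, hcoeff, if_pos le_rfl, Nat.sub_self, coeff_zero_eq_constantCoeff_apply,
    map_pow, hw0]
  exact pow_ne_zero _ hx

end Pool.Agent.PN.H77
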