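import Pool.Agent.Helper50_PN.Stmts

/-!
# Squad PN, module PSI: divisibility after the substitution gives the order at the strata
-/

set_option autoImplicit false

universe u

namespace Pool.Agent.PN.H77

open MvPolynomial

/-- the coefficients up to order `k` of a product depend only on the factors up to order `k` -/
lemma coeff_mul_congr {R : Type*} [CommRing R] (k : ℕ) (f f' g g' : PowerSeries R)
    (hf : ∀ s ≤ k, PowerSeries.coeff s f = PowerSeries.coeff s f')
    (hg : ∀ s ≤ k, PowerSeries.coeff s g = PowerSeries.coeff s g') (s : ℕ) (hs : s ≤ k) :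
    PowerSeries.coeff s (f * g) = PowerSeries.coeff s (f' * g') := by
  rw [PowerSeries.coeff_mul, PowerSeries.coeff_mul]
  refine Finset.sum_congr rfl (fun p hp => ?_)
  have h := Finset.HasAntidiagonal.mem_antidiagonal.mp hp
  rw [hf p.1 (by omega), hg p.2 (by omega)]

/-- the image of the generic series under a ring homomorphism -/
lemma coeff_map_gen {n N k : ℕ} {R : Type*} [CommRing R] (φ : Pol n N k →+* R) (l : Fin n)
    (s : ℕ) (hs : s < k + 1) :
    PowerSeries.coeff s (PowerSeries.map φ (gen l)) = φ (X (Sum.inr (l, ⟨s, hs⟩))) := by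
  rw [PowerSeries.coeff_map, gen, PowerSeries.coeff_mk, dif_pos hs]

theorem psi_thm : PsiStmt.{u} := by
  classical
  intro n N k m' P H I i₀ j hi₀ hmin hcard R _ a x η hx
  set w : PowerSeries R := x i₀ - PowerSeries.C (a i₀ (j i₀)) with hw
  -- the values
  set v : Sig n N k → R := Sum.elim (fun p => a p.1 p.2)
    (fun p => if p.1 = i₀ then PowerSeries.coeff (p.2 : ℕ) w
      else if p.1 ∈ I then PowerSeries.coeff (p.2 : ℕ) (η p.1)
      else PowerSeries.coeff (p.2 : ℕ) (x p.1)) with hv
  set φ : Pol n N k →ₐ[ℤ] R := aeval v with hφ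
  have hφl : ∀ p, φ (X (Sum.inl p)) = a p.1 p.2 := by
    intro p
    rw [hφ, aeval_X, hv]
    rfl
  have hφr : ∀ p : Fin n × Fin (k + 1), φ (X (Sum.inr p)) =
      if p.1 = i₀ then PowerSeries.coeff (p.2 : ℕ) w
      else if p.1 ∈ I then PowerSeries.coeff (p.2 : ℕ) (η p.1)
      else PowerSeries.coeff (p.2 : ℕ) (x p.1) := by
    intro p
    rw [hφ, aeval_X, hv]
    rfl
  have key : φ.comp (psi I i₀ j) = evP a x := by
    apply MvPolynomial.algHom_ext
    rintro (p | p)
    · rw [AlgHom.comp_apply, psi, aeval_X, Sum.elim_inl, hφl, evP, aeval_X]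
      rfl
    · have hp2 : (p.2 : ℕ) < k + 1 := p.2.2
      have h0 : ∀ s ≤ k, PowerSeries.coeff s (PowerSeries.map (φ : Pol n N k →+* R) (gen i₀)) =
          PowerSeries.coeff s w := by
        intro s hs
        rw [coeff_map_gen _ _ _ (Nat.lt_succ_of_le hs)]
        change φ (X (Sum.inr (i₀, ⟨s, _⟩))) = _
        rw [hφr]
        simp
      have hR : evP a x (X (Sum.inr p)) = PowerSeries.coeff (p.2 : ℕ) (x p.1) := by
        rw [evP, aeval_X]
        rfl
      rw [AlgHom.comp_apply, psi, aeval_X, Sum.elim_inr, hR]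
      split_ifs with h1 h2
      · have e1 : φ (PowerSeries.coeff (p.2 : ℕ)
            (PowerSeries.C (X (Sum.inl (i₀, j i₀))) + gen i₀)) =
            PowerSeries.coeff (p.2 : ℕ) (PowerSeries.map (φ : Pol n N k →+* R)
              (PowerSeries.C (X (Sum.inl (i₀, j i₀))) + gen i₀)) := by
          rw [PowerSeries.coeff_map]
          rfl
        rw [e1, map_add, map_add, h0 _ (by omega), PowerSeries.map_C]
        change PowerSeries.coeff (p.2 : ℕ) (PowerSeries.C (φ (X (Sum.inl (i₀, j i₀))))) + _ = _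
        rw [hφl, hw, map_sub, h1]
        ring
      · have e1 : φ (PowerSeries.coeff (p.2 : ℕ)
            (PowerSeries.C (X (Sum.inl (p.1, j p.1))) + gen p.1 * gen i₀)) =
            PowerSeries.coeff (p.2 : ℕ) (PowerSeries.map (φ : Pol n N k →+* R)
              (PowerSeries.C (X (Sum.inl (p.1, j p.1))) + gen p.1 * gen i₀)) := by
          rw [PowerSeries.coeff_map]
          rfl
        have h3 : ∀ s ≤ k, PowerSeries.coeff s (PowerSeries.map (φ : Pol n N k →+* R)
            (gen p.1)) = PowerSeries.coeff s (η p.1) := by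
          intro s hs
          rw [coeff_map_gen _ _ _ (Nat.lt_succ_of_le hs)]
          change φ (X (Sum.inr (p.1, ⟨s, _⟩))) = _
          rw [hφr, if_neg h1, if_pos h2]
        rw [e1, map_add, map_mul, map_add, coeff_mul_congr k _ _ _ _ h3 h0 _ (by omega),
          PowerSeries.map_C]
        change PowerSeries.coeff (p.2 : ℕ) (PowerSeries.C (φ (X (Sum.inl (p.1, j p.1))))) + _ = _
        rw [hφl, hx p.1 h2 h1 _ (by omega), map_add]
      · rw [hφr, if_neg h1, if_neg h2]
  have hdiv := map_dvd φ (H I i₀ j hi₀ hmin hcard)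
  rw [map_pow, hφr] at hdiv
  have e2 : φ (psi I i₀ j P) = evP a x P := by
    rw [← key]
    rfl
  rw [e2] at hdiv
  simp only [if_true] at hdiv
  have e3 : PowerSeries.coeff ((0 : Fin (k + 1)) : ℕ) w =
      PowerSeries.constantCoeff (x i₀) - a i₀ (j i₀) := by
    rw [hw]
    simp
  rw [e3] at hdiv
  exact hdiv

end Pool.Agent.PN.H77
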